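import Mathlib

/-!
# The algebra `ℓ¹(M)` of a discrete monoid

`EllM M` is Mathlib's Banach space `lp (fun _ : M => ℂ) 1` of absolutely summable functions
`M → ℂ`, with the convolution product determined by `δ_x * δ_y = δ_{xy}`.
-/

open scoped ENNReal Classical

set_option autoImplicit false

namespace Q164.DF

/-- The Banach space `ℓ¹(M)` (Mathlib's `lp` space with exponent `1`). -/
abbrev L1 (M : Type*) : Type _ := lp (fun _ : M => ℂ) 1

namespace L1

variable {M : Type*}

lemma summable_norm (f : L1 M) : Summable (fun x => ‖f x‖) := by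
  have := (lp.hasSum_norm (p := 1) (by norm_num) (f : lp (fun _ : M => ℂ) 1)).summable
  simpa using this

lemma norm_eq (f : L1 M) : ‖f‖ = ∑' x, ‖f x‖ := by
  have h := lp.norm_eq_tsum_rpow (p := 1) (by norm_num) (f : lp (fun _ : M => ℂ) 1)
  have h2 : ‖f‖ = (∑' x, ‖f x‖ ^ (1 : ℝ≥0∞).toReal) ^ (1 / (1 : ℝ≥0∞).toReal) := h
  rw [h2]
  simp

/-- The point mass at `x`. -/
noncomputable def delta (x : M) : L1 M :=
  (lp.single 1 x (1 : ℂ) : lp (fun _ : M => ℂ) 1)

lemma delta_apply (x y : M) : (delta x : L1 M) y = if y = x then 1 else 0 := by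
  change (Pi.single x (1 : ℂ) : M → ℂ) y = _
  rw [Pi.single_apply]

@[simp] lemma norm_delta (x : M) : ‖(delta x : L1 M)‖ = 1 := by
  have h := lp.norm_single (E := fun _ : M => ℂ) (p := 1) (by norm_num) x (1 : ℂ)
  have h2 : ‖(delta x : L1 M)‖ = ‖(1 : ℂ)‖ := h
  rw [h2, norm_one]

/-- Two continuous linear maps on `ℓ¹(M)` agreeing on point masses are equal. -/
lemma clm_ext {E : Type*} [NormedAddCommGroup E] [NormedSpace ℂ E]
    {S T : L1 M →L[ℂ] E} (h : ∀ x, S (delta x) = T (delta x)) : S = T := by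
  refine lp.ext_continuousLinearMap (𝕜 := ℂ) (p := 1) (by norm_num) ?_
  intro i
  ext
  exact h i

/-- Every element of `ℓ¹(M)` is the sum of its components. -/
lemma hasSum_delta (f : L1 M) : HasSum (fun x => f x • (delta x : L1 M)) f := by
  have h := lp.hasSum_single (p := 1) (by norm_num) (f : lp (fun _ : M => ℂ) 1)
  have e : (fun x => f x • (delta x : L1 M)) = fun i => lp.single 1 i (f i) := by
    funext i
    have h2 := lp.single_smul (E := fun _ : M => ℂ) 1 i (f i) (1 : ℂ)
    rw [smul_eq_mul, mul_one] at h2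
    exact h2.symm
  rw [e]
  exact h

variable {E : Type*} [NormedAddCommGroup E] [NormedSpace ℂ E] [CompleteSpace E]

lemma summable_lift (v : M → E) (C : ℝ) (hv : ∀ x, ‖v x‖ ≤ C) (f : L1 M) :
    Summable (fun x => f x • v x) := by
  refine Summable.of_norm_bounded (g := fun x => ‖f x‖ * C) (f.summable_norm.mul_right C) ?_
  intro x
  rw [norm_smul]
  exact mul_le_mul_of_nonneg_left (hv x) (norm_nonneg _)

lemma lift_map_add (v : M → E) (C : ℝ) (hv : ∀ x, ‖v x‖ ≤ C) (f g : L1 M) :
    ∑' x, (f + g) x • v x = (∑' x, f x • v x) + ∑' x, g x • v x := by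
  rw [← (summable_lift v C hv f).tsum_add (summable_lift v C hv g)]
  simp [add_smul]

lemma lift_map_smul (v : M → E) (C : ℝ) (hv : ∀ x, ‖v x‖ ≤ C) (c : ℂ) (f : L1 M) :
    ∑' x, (c • f) x • v x = c • ∑' x, f x • v x := by
  rw [← (summable_lift v C hv f).tsum_const_smul c]
  simp [mul_smul]

omit [CompleteSpace E] in
lemma lift_bound (v : M → E) (C : ℝ) (hv : ∀ x, ‖v x‖ ≤ C) (f : L1 M) :
    ‖∑' x, f x • v x‖ ≤ C * ‖f‖ := by
  have h1 : Summable (fun x => ‖f x‖ * C) := f.summable_norm.mul_right C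
  calc ‖∑' x, f x • v x‖ ≤ ∑' x, ‖f x‖ * C := by
        refine tsum_of_norm_bounded h1.hasSum ?_
        intro x
        rw [norm_smul]
        exact mul_le_mul_of_nonneg_left (hv x) (norm_nonneg _)
    _ = C * ‖f‖ := by rw [tsum_mul_right, norm_eq, mul_comm]

/-- The linear map `f ↦ ∑ₓ f(x) v(x)` given by a bounded family `v`. -/
noncomputable def liftLin (v : M → E) (C : ℝ) (hv : ∀ x, ‖v x‖ ≤ C) : L1 M →ₗ[ℂ] E where
  toFun := fun f => ∑' x, f x • v x
  map_add' := lift_map_add v C hv
  map_smul' := lift_map_smul v C hv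

/-- The continuous linear map `f ↦ ∑ₓ f(x) v(x)` given by a bounded family `v`. -/
noncomputable def lift (v : M → E) (C : ℝ) (hv : ∀ x, ‖v x‖ ≤ C) : L1 M →L[ℂ] E :=
  (liftLin v C hv).mkContinuous C (lift_bound v C hv)

lemma lift_apply (v : M → E) (C : ℝ) (hv : ∀ x, ‖v x‖ ≤ C) (f : L1 M) :
    lift v C hv f = ∑' x, f x • v x := rfl

@[simp] lemma lift_delta (v : M → E) (C : ℝ) (hv : ∀ x, ‖v x‖ ≤ C) (x : M) :
    lift v C hv (delta x) = v x := by
  rw [lift_apply, tsum_eq_single x]
  · simp [delta_apply]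
  · intro y hy
    simp [delta_apply, hy]

lemma norm_lift_le (v : M → E) (C : ℝ) (hC : 0 ≤ C) (hv : ∀ x, ‖v x‖ ≤ C) :
    ‖lift v C hv‖ ≤ C :=
  LinearMap.mkContinuous_norm_le _ hC _

variable [Monoid M]

lemma norm_delta_mul_le (x y : M) : ‖(delta (x * y) : L1 M)‖ ≤ 1 := by simp

/-- Left translation by `x`: `δ_y ↦ δ_{xy}`. -/
noncomputable def transL (x : M) : L1 M →L[ℂ] L1 M :=
  lift (fun y => delta (x * y)) 1 (norm_delta_mul_le x)

lemma norm_transL_le (x : M) : ‖transL x‖ ≤ 1 := norm_lift_le _ _ zero_le_one _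

/-- Convolution as a continuous bilinear map: `f * g = ∑ₓ ∑_y f(x) g(y) δ_{xy}`. -/
noncomputable def convL : L1 M →L[ℂ] L1 M →L[ℂ] L1 M :=
  lift transL 1 norm_transL_le

@[simp] lemma convL_delta_delta (x y : M) :
    convL (delta x : L1 M) (delta y) = delta (x * y) := by
  simp [convL, transL]

lemma norm_convL_le : ‖(convL : L1 M →L[ℂ] L1 M →L[ℂ] L1 M)‖ ≤ 1 :=
  norm_lift_le _ _ zero_le_one _

lemma conv_assoc (f g h : L1 M) : convL (convL f g) h = convL f (convL g h) := by
  -- trilinear extensionality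
  let A : L1 M →L[ℂ] L1 M →L[ℂ] L1 M →L[ℂ] L1 M :=
    (ContinuousLinearMap.compL ℂ (L1 M) (L1 M) (L1 M →L[ℂ] L1 M) convL).comp convL
  let B : L1 M →L[ℂ] L1 M →L[ℂ] L1 M →L[ℂ] L1 M :=
    ((ContinuousLinearMap.compL ℂ (L1 M) (L1 M →L[ℂ] L1 M)
      (L1 M →L[ℂ] L1 M)).flip convL).comp
      ((ContinuousLinearMap.compL ℂ (L1 M) (L1 M) (L1 M)).comp convL)
  have hA : ∀ f g h, A f g h = convL (convL f g) h := fun _ _ _ => rfl
  have hB : ∀ f g h, B f g h = convL f (convL g h) := fun _ _ _ => rfl
  have : A = B := by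
    refine clm_ext fun x => clm_ext fun y => clm_ext fun z => ?_
    rw [hA, hB]
    simp [mul_assoc]
  rw [← hA, ← hB, this]

lemma one_conv (f : L1 M) : convL (delta 1) f = f := by
  have : convL (delta 1) = ContinuousLinearMap.id ℂ (L1 M) := by
    refine clm_ext fun x => ?_
    simp
  rw [this]
  rfl

lemma conv_one (f : L1 M) : convL f (delta 1) = f := by
  have : convL.flip (delta 1) = ContinuousLinearMap.id ℂ (L1 M) := by
    refine clm_ext fun x => ?_
    rw [ContinuousLinearMap.flip_apply]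
    simp
  calc convL f (delta 1) = convL.flip (delta 1) f := rfl
    _ = f := by rw [this]; rfl

lemma conv_add (f g h : L1 M) : convL f (g + h) = convL f g + convL f h := by
  simp only [map_add]

lemma add_conv (f g h : L1 M) : convL (f + g) h = convL f h + convL g h := by
  simp only [map_add, _root_.add_apply]

lemma zero_conv (f : L1 M) : convL 0 f = 0 := by
  simp only [map_zero, _root_.zero_apply]

lemma conv_zero (f : L1 M) : convL f 0 = 0 := by
  simp only [map_zero]

lemma norm_conv_le (f g : L1 M) : ‖convL f g‖ ≤ ‖f‖ * ‖g‖ := by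
  calc ‖convL f g‖ ≤ ‖convL (M := M)‖ * ‖f‖ * ‖g‖ := ContinuousLinearMap.le_opNorm₂ _ _ _
    _ ≤ 1 * ‖f‖ * ‖g‖ := by gcongr; exact norm_convL_le
    _ = ‖f‖ * ‖g‖ := by ring

lemma lift_conv {B : Type*} [NormedRing B] [NormedAlgebra ℂ B] [CompleteSpace B] (v : M → B)
    (hv : ∀ x, ‖v x‖ ≤ 1) (hm : ∀ x y, v (x * y) = v x * v y) (f g : L1 M) :
    lift v 1 hv (convL f g) = lift v 1 hv f * lift v 1 hv g := by
  let P : L1 M →L[ℂ] L1 M →L[ℂ] B :=
    (ContinuousLinearMap.compL ℂ (L1 M) (L1 M) B (lift v 1 hv)).comp convL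
  let Q : L1 M →L[ℂ] L1 M →L[ℂ] B :=
    ((ContinuousLinearMap.compL ℂ (L1 M) B B).flip (lift v 1 hv)).comp
      ((ContinuousLinearMap.mul ℂ B).comp (lift v 1 hv))
  have hP : ∀ f g, P f g = lift v 1 hv (convL f g) := fun _ _ => rfl
  have hQ : ∀ f g, Q f g = lift v 1 hv f * lift v 1 hv g := fun _ _ => rfl
  have : P = Q := by
    refine clm_ext fun x => clm_ext fun y => ?_
    rw [hP, hQ, convL_delta_delta, lift_delta, lift_delta, lift_delta, hm]
  rw [← hP, ← hQ, this]

lemma smul_conv (c : ℂ) (f g : L1 M) : convL (c • f) g = c • (convL f g) := by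
  simp only [map_smul, _root_.smul_apply]

lemma conv_smul (c : ℂ) (f g : L1 M) : convL f (c • g) = c • (convL f g) := by
  simp only [map_smul]

/-- The convolution formula. -/
theorem convL_apply (f g : L1 M) (z : M) :
    convL f g z = ∑' x, ∑' y, if x * y = z then f x * g y else 0 := by
  let ev : L1 M →L[ℂ] ℂ := lp.evalCLM ℂ (fun _ : M => ℂ) (p := 1) z
  have hev : ∀ h : L1 M, ev h = h z := fun h => rfl
  have h1 : ∀ x : M, ev (transL x g) = ∑' y, if x * y = z then g y else 0 := by
    intro x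
    rw [transL, lift_apply, ev.map_tsum (summable_lift _ 1 (norm_delta_mul_le x) g)]
    refine tsum_congr fun y => ?_
    rw [map_smul, hev, delta_apply, smul_eq_mul]
    by_cases h : x * y = z
    · rw [if_pos h, if_pos h.symm, mul_one]
    · rw [if_neg h, if_neg (fun h' => h h'.symm), mul_zero]
  rw [← hev, convL, lift_apply]
  have hs := summable_lift (M := M) transL 1 norm_transL_le f
  have h2 : ((∑' x, f x • transL x) : L1 M →L[ℂ] L1 M) g
      = ∑' x, f x • transL x g :=
    (ContinuousLinearMap.apply ℂ (L1 M) g).map_tsum hs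
  rw [h2]
  have hs2 : Summable (fun x => f x • transL x g) :=
    hs.map (ContinuousLinearMap.apply ℂ (L1 M) g)
      (ContinuousLinearMap.apply ℂ (L1 M) g).continuous
  rw [ev.map_tsum hs2]
  refine tsum_congr fun x => ?_
  rw [map_smul, h1, smul_eq_mul, ← tsum_mul_left]
  refine tsum_congr fun y => ?_
  split_ifs <;> simp

lemma conv_mem (f g : L1 M) :
    (fun z => ∑' x, ∑' y, if x * y = z then f x * g y else 0) ∈ lp (fun _ : M => ℂ) 1 := by
  have : (fun z => ∑' x, ∑' y, if x * y = z then f x * g y else 0) = ⇑(convL f g) :=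
    funext fun z => (convL_apply f g z).symm
  rw [this]
  exact (convL f g).2

/-- The convolution product of `ℓ¹(M)`: `(f * g)(z)` is the sum of all `f(x) g(y)` with
`x y = z`. -/
noncomputable def conv (f g : L1 M) : L1 M :=
  ⟨fun z => ∑' x, ∑' y, if x * y = z then f x * g y else 0, conv_mem f g⟩

lemma conv_eq (f g : L1 M) : conv f g = convL f g := by
  apply Subtype.ext
  funext z
  exact (convL_apply f g z).symm

lemma lift_conv' {B : Type*} [NormedRing B] [NormedAlgebra ℂ B] [CompleteSpace B] (v : M → B)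
    (hv : ∀ x, ‖v x‖ ≤ 1) (hm : ∀ x y, v (x * y) = v x * v y) (f g : L1 M) :
    lift v 1 hv (conv f g) = lift v 1 hv f * lift v 1 hv g := by
  rw [conv_eq]
  exact lift_conv v hv hm f g

lemma conv_add' (f g h : L1 M) : conv f (g + h) = conv f g + conv f h := by
  simp only [conv_eq, conv_add]

lemma add_conv' (f g h : L1 M) : conv (f + g) h = conv f h + conv g h := by
  simp only [conv_eq, add_conv]

lemma zero_conv' (f : L1 M) : conv 0 f = 0 := by
  simp only [conv_eq, zero_conv]

lemma conv_zero' (f : L1 M) : conv f 0 = 0 := by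
  simp only [conv_eq, conv_zero]

lemma conv_assoc' (f g h : L1 M) : conv (conv f g) h = conv f (conv g h) := by
  simp only [conv_eq, conv_assoc]

lemma one_conv' (f : L1 M) : conv (delta 1) f = f := by
  simp only [conv_eq, one_conv]

lemma conv_one' (f : L1 M) : conv f (delta 1) = f := by
  simp only [conv_eq, conv_one]

lemma norm_conv_le' (f g : L1 M) : ‖conv f g‖ ≤ ‖f‖ * ‖g‖ := by
  simpa only [conv_eq] using norm_conv_le f g

lemma smul_conv' (c : ℂ) (f g : L1 M) : conv (c • f) g = c • conv f g := by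
  simp only [conv_eq, smul_conv]

lemma conv_smul' (c : ℂ) (f g : L1 M) : conv f (c • g) = c • conv f g := by
  simp only [conv_eq, conv_smul]

end L1

/-- The Banach algebra `ℓ¹(M)`: the Banach space `lp (fun _ : M => ℂ) 1` of absolutely summable
functions on the monoid `M`, with the convolution product. -/
def EllM (M : Type*) : Type _ := L1 M

namespace EllM

variable {M : Type*} [Monoid M]

/-- The Banach space structure of `ℓ¹(M)`. -/
@[reducible] noncomputable def preNACG (M : Type*) : NormedAddCommGroup (EllM M) :=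
  lp.normedAddCommGroup (E := fun _ : M => ℂ) (p := 1)

/-- The product of `ℓ¹(M)` is convolution. -/
noncomputable instance instMul : Mul (EllM M) := ⟨L1.conv⟩

/-- The unit of `ℓ¹(M)` is the point mass at `1`. -/
noncomputable instance instOne : One (EllM M) := ⟨L1.delta 1⟩

/-- `ℓ¹(M)` is a ring. -/
noncomputable instance instRing : Ring (EllM M) :=
  { (preNACG M).toAddCommGroup, (instMul : Mul (EllM M)), (instOne : One (EllM M)) with
    left_distrib := L1.conv_add'
    right_distrib := L1.add_conv'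
    zero_mul := L1.zero_conv'
    mul_zero := L1.conv_zero'
    mul_assoc := L1.conv_assoc'
    one_mul := L1.one_conv'
    mul_one := L1.conv_one' }

/-- `ℓ¹(M)` is a normed ring. -/
noncomputable instance instNormedRing : NormedRing (EllM M) :=
  { preNACG M, (instRing : Ring (EllM M)) with
    norm_mul_le := L1.norm_conv_le' }

/-- The vector space structure of `ℓ¹(M)`. -/
@[reducible] noncomputable def preModule (M : Type*) [Monoid M] : Module ℂ (EllM M) :=
  (NormedSpace.toModule : Module ℂ (L1 M))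

noncomputable instance instAlgebra : Algebra ℂ (EllM M) :=
  @Algebra.ofModule ℂ (EllM M) _ _ (preModule M) L1.smul_conv' L1.conv_smul'

lemma norm_smul_le' (c : ℂ) (f : EllM M) : ‖c • f‖ ≤ ‖c‖ * ‖f‖ :=
  norm_smul_le (α := ℂ) (β := L1 M) c f

noncomputable instance instNormedAlgebra : NormedAlgebra ℂ (EllM M) where
  norm_smul_le := norm_smul_le'

instance instComplete : CompleteSpace (EllM M) :=
  (inferInstance : CompleteSpace (L1 M))

/-- The point mass at `x`. -/
noncomputable def delta (x : M) : EllM M := L1.delta x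

lemma one_def : (1 : EllM M) = delta 1 := rfl

@[simp] lemma norm_delta (x : M) : ‖(delta x : EllM M)‖ = 1 := L1.norm_delta x

@[simp] lemma delta_mul_delta (x y : M) : (delta x * delta y : EllM M) = delta (x * y) :=
  (L1.conv_eq _ _).trans (L1.convL_delta_delta x y)

/-- The value of `f ∈ ℓ¹(M)` at `x`. -/
def coeff (f : EllM M) (x : M) : ℂ := (show L1 M from f) x

lemma hasSum_delta (f : EllM M) : HasSum (fun x => coeff f x • (delta x : EllM M)) f :=
  L1.hasSum_delta f

/-- The norm of `ℓ¹(M)`. -/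
theorem norm_eq (f : EllM M) : ‖f‖ = ∑' x, ‖coeff f x‖ := L1.norm_eq f

/-- Two continuous linear maps on `ℓ¹(M)` agreeing on point masses are equal. -/
lemma clm_ext {E : Type*} [NormedAddCommGroup E] [NormedSpace ℂ E]
    {S T : EllM M →L[ℂ] E} (h : ∀ x, S (delta x) = T (delta x)) : S = T :=
  L1.clm_ext (S := (S : L1 M →L[ℂ] E)) (T := (T : L1 M →L[ℂ] E)) h

section Map

variable {B : Type*} [NormedRing B] [NormedAlgebra ℂ B] [CompleteSpace B] (v : M → B)
  (hv : ∀ x, ‖v x‖ ≤ 1) (h1 : v 1 = 1) (hm : ∀ x y, v (x * y) = v x * v y)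

/-- The continuous linear map `f ↦ ∑ₓ f(x) v(x)` given by a family `v` in the unit ball. -/
noncomputable def liftL : EllM M →L[ℂ] B := L1.lift v 1 hv

@[simp] lemma liftL_delta (x : M) : liftL v hv (delta x) = v x := L1.lift_delta v 1 hv x

lemma norm_liftL (f : EllM M) : ‖liftL v hv f‖ ≤ ‖f‖ := by
  have h := L1.lift_bound v 1 hv f
  rw [one_mul] at h
  exact h

include h1 in
lemma liftL_one : liftL v hv 1 = 1 := by
  rw [one_def, liftL_delta, h1]

include hm in
lemma liftL_mul (f g : EllM M) : liftL v hv (f * g) = liftL v hv f * liftL v hv g := by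
  exact L1.lift_conv' v hv hm f g

/-- The homomorphism of Banach algebras given by a monoid homomorphism into the unit ball. -/
noncomputable def liftR : EllM M →+* B where
  toFun := liftL v hv
  map_one' := liftL_one v hv h1
  map_mul' := liftL_mul v hv hm
  map_zero' := map_zero _
  map_add' := map_add _

/-- The linear extension is given by a norm convergent sum. -/
lemma hasSum_liftL (f : EllM M) :
    HasSum (fun x => coeff f x • v x) (liftL v hv f) := by
  have h := (L1.summable_lift v 1 hv f).hasSum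
  exact h

end Map

end EllM

end Q164.DF
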