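import Mathlib
import Pool.Agent.Q164.DF.L1M

/-!
# The Banach algebra `ℓ¹(S)` of a discrete semigroup

`EllS S` is Mathlib's Banach space `lp (fun _ : S => ℂ) 1` with the convolution product: a
Banach algebra, in general without unit.
-/

open scoped ENNReal Classical

set_option autoImplicit false

namespace Q164.DF

namespace LS

open L1

variable {S : Type*} [Semigroup S]

lemma norm_delta_mul_le (x y : S) : ‖(delta (x * y) : L1 S)‖ ≤ 1 := by simp

/-- Left translation by `x`: `δ_y ↦ δ_{xy}`. -/
noncomputable def transL (x : S) : L1 S →L[ℂ] L1 S :=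
  lift (fun y => delta (x * y)) 1 (norm_delta_mul_le x)

lemma norm_transL_le (x : S) : ‖transL x‖ ≤ 1 := norm_lift_le _ _ zero_le_one _

/-- Convolution as a continuous bilinear map. -/
noncomputable def convL : L1 S →L[ℂ] L1 S →L[ℂ] L1 S :=
  lift transL 1 norm_transL_le

@[simp] lemma convL_delta_delta (x y : S) :
    convL (delta x : L1 S) (delta y) = delta (x * y) := by
  simp [convL, transL]

lemma norm_convL_le : ‖(convL : L1 S →L[ℂ] L1 S →L[ℂ] L1 S)‖ ≤ 1 :=
  norm_lift_le _ _ zero_le_one _

/-- The convolution formula. -/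
theorem convL_apply (f g : L1 S) (z : S) :
    convL f g z = ∑' x, ∑' y, if x * y = z then f x * g y else 0 := by
  let ev : L1 S →L[ℂ] ℂ := lp.evalCLM ℂ (fun _ : S => ℂ) (p := 1) z
  have hev : ∀ h : L1 S, ev h = h z := fun h => rfl
  have h1 : ∀ x : S, ev (transL x g) = ∑' y, if x * y = z then g y else 0 := by
    intro x
    rw [transL, lift_apply, ev.map_tsum (summable_lift _ 1 (norm_delta_mul_le x) g)]
    refine tsum_congr fun y => ?_
    rw [map_smul, hev, delta_apply, smul_eq_mul]
    by_cases h : x * y = z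
    · rw [if_pos h, if_pos h.symm, mul_one]
    · rw [if_neg h, if_neg (fun h' => h h'.symm), mul_zero]
  rw [← hev, convL, lift_apply]
  have hs := summable_lift (M := S) transL 1 norm_transL_le f
  have h2 : ((∑' x, f x • transL x) : L1 S →L[ℂ] L1 S) g
      = ∑' x, f x • transL x g :=
    (ContinuousLinearMap.apply ℂ (L1 S) g).map_tsum hs
  rw [h2]
  have hs2 : Summable (fun x => f x • transL x g) :=
    hs.map (ContinuousLinearMap.apply ℂ (L1 S) g)
      (ContinuousLinearMap.apply ℂ (L1 S) g).continuous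
  rw [ev.map_tsum hs2]
  refine tsum_congr fun x => ?_
  rw [map_smul, h1, smul_eq_mul, ← tsum_mul_left]
  refine tsum_congr fun y => ?_
  split_ifs <;> simp

lemma conv_mem (f g : L1 S) :
    (fun z => ∑' x, ∑' y, if x * y = z then f x * g y else 0) ∈ lp (fun _ : S => ℂ) 1 := by
  have : (fun z => ∑' x, ∑' y, if x * y = z then f x * g y else 0) = ⇑(convL f g) :=
    funext fun z => (convL_apply f g z).symm
  rw [this]
  exact (convL f g).2

/-- The convolution product of `ℓ¹(S)`: `(f * g)(z)` is the sum of all `f(x) g(y)` with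
`x y = z`. -/
noncomputable def conv (f g : L1 S) : L1 S :=
  ⟨fun z => ∑' x, ∑' y, if x * y = z then f x * g y else 0, conv_mem f g⟩

lemma conv_eq (f g : L1 S) : conv f g = convL f g := by
  apply Subtype.ext
  funext z
  exact (convL_apply f g z).symm

lemma convL_assoc (f g h : L1 S) : convL (convL f g) h = convL f (convL g h) := by
  let A : L1 S →L[ℂ] L1 S →L[ℂ] L1 S →L[ℂ] L1 S :=
    (ContinuousLinearMap.compL ℂ (L1 S) (L1 S) (L1 S →L[ℂ] L1 S) convL).comp convL
  let B : L1 S →L[ℂ] L1 S →L[ℂ] L1 S →L[ℂ] L1 S :=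
    ((ContinuousLinearMap.compL ℂ (L1 S) (L1 S →L[ℂ] L1 S)
      (L1 S →L[ℂ] L1 S)).flip convL).comp
      ((ContinuousLinearMap.compL ℂ (L1 S) (L1 S) (L1 S)).comp convL)
  have hA : ∀ f g h, A f g h = convL (convL f g) h := fun _ _ _ => rfl
  have hB : ∀ f g h, B f g h = convL f (convL g h) := fun _ _ _ => rfl
  have : A = B := by
    refine clm_ext fun x => clm_ext fun y => clm_ext fun z => ?_
    rw [hA, hB]
    simp [mul_assoc]
  rw [← hA, ← hB, this]

lemma conv_add (f g h : L1 S) : conv f (g + h) = conv f g + conv f h := by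
  simp only [conv_eq, map_add]

lemma add_conv (f g h : L1 S) : conv (f + g) h = conv f h + conv g h := by
  simp only [conv_eq, map_add, _root_.add_apply]

lemma zero_conv (f : L1 S) : conv 0 f = 0 := by
  simp only [conv_eq, map_zero, _root_.zero_apply]

lemma conv_zero (f : L1 S) : conv f 0 = 0 := by
  simp only [conv_eq, map_zero]

lemma conv_assoc (f g h : L1 S) : conv (conv f g) h = conv f (conv g h) := by
  simp only [conv_eq, convL_assoc]

lemma norm_conv_le (f g : L1 S) : ‖conv f g‖ ≤ ‖f‖ * ‖g‖ := by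
  rw [conv_eq]
  calc ‖convL f g‖ ≤ ‖convL (S := S)‖ * ‖f‖ * ‖g‖ := ContinuousLinearMap.le_opNorm₂ _ _ _
    _ ≤ 1 * ‖f‖ * ‖g‖ := by gcongr; exact norm_convL_le
    _ = ‖f‖ * ‖g‖ := by ring

lemma smul_conv (c : ℂ) (f g : L1 S) : conv (c • f) g = c • (conv f g) := by
  simp only [conv_eq, map_smul, _root_.smul_apply]

lemma conv_smul (c : ℂ) (f g : L1 S) : conv f (c • g) = c • (conv f g) := by
  simp only [conv_eq, map_smul]

lemma lift_conv {B : Type*} [NormedRing B] [NormedAlgebra ℂ B] [CompleteSpace B] (v : S → B)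
    (hv : ∀ x, ‖v x‖ ≤ 1) (hm : ∀ x y, v (x * y) = v x * v y) (f g : L1 S) :
    lift v 1 hv (conv f g) = lift v 1 hv f * lift v 1 hv g := by
  rw [conv_eq]
  let P : L1 S →L[ℂ] L1 S →L[ℂ] B :=
    (ContinuousLinearMap.compL ℂ (L1 S) (L1 S) B (lift v 1 hv)).comp convL
  let Q : L1 S →L[ℂ] L1 S →L[ℂ] B :=
    ((ContinuousLinearMap.compL ℂ (L1 S) B B).flip (lift v 1 hv)).comp
      ((ContinuousLinearMap.mul ℂ B).comp (lift v 1 hv))
  have hP : ∀ f g, P f g = lift v 1 hv (convL f g) := fun _ _ => rfl
  have hQ : ∀ f g, Q f g = lift v 1 hv f * lift v 1 hv g := fun _ _ => rfl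
  have : P = Q := by
    refine clm_ext fun x => clm_ext fun y => ?_
    rw [hP, hQ, convL_delta_delta, lift_delta, lift_delta, lift_delta, hm]
  rw [← hP, ← hQ, this]

end LS

/-- The Banach algebra `ℓ¹(S)`: the Banach space `lp (fun _ : S => ℂ) 1` of absolutely summable
functions on the semigroup `S`, with the convolution product. -/
def EllS (S : Type*) : Type _ := L1 S

namespace EllS

variable {S : Type*} [Semigroup S]

/-- The Banach space structure of `ℓ¹(S)`. -/
@[reducible] noncomputable def preNACG (S : Type*) : NormedAddCommGroup (EllS S) :=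
  lp.normedAddCommGroup (E := fun _ : S => ℂ) (p := 1)

/-- The product of `ℓ¹(S)` is convolution. -/
noncomputable instance instMul : Mul (EllS S) := ⟨LS.conv⟩

/-- `ℓ¹(S)` is a ring without unit. -/
noncomputable instance instRing : NonUnitalRing (EllS S) :=
  { (preNACG S).toAddCommGroup, (instMul : Mul (EllS S)) with
    left_distrib := LS.conv_add
    right_distrib := LS.add_conv
    zero_mul := LS.zero_conv
    mul_zero := LS.conv_zero
    mul_assoc := LS.conv_assoc }

/-- `ℓ¹(S)` is a normed ring. -/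
noncomputable instance instNormedRing : NonUnitalNormedRing (EllS S) :=
  { preNACG S, (instRing : NonUnitalRing (EllS S)) with
    norm_mul_le := LS.norm_conv_le }

/-- `ℓ¹(S)` is a complex normed space. -/
noncomputable instance instNormedSpace : NormedSpace ℂ (EllS S) where
  toModule := (NormedSpace.toModule : Module ℂ (L1 S))
  norm_smul_le := norm_smul_le (α := ℂ) (β := L1 S)

instance instTower : IsScalarTower ℂ (EllS S) (EllS S) := ⟨LS.smul_conv⟩

instance instComm : SMulCommClass ℂ (EllS S) (EllS S) :=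
  ⟨fun c f g => (LS.conv_smul c f g).symm⟩

instance instComplete : CompleteSpace (EllS S) :=
  (inferInstance : CompleteSpace (L1 S))

/-- The point mass at `x`. -/
noncomputable def delta (x : S) : EllS S := L1.delta x

omit [Semigroup S] in
lemma norm_delta' (x : S) : ‖(L1.delta x : L1 S)‖ = 1 := L1.norm_delta x

@[simp] lemma norm_delta (x : S) : ‖(delta x : EllS S)‖ = 1 := L1.norm_delta x

@[simp] lemma delta_mul_delta (x y : S) : (delta x * delta y : EllS S) = delta (x * y) :=
  (LS.conv_eq _ _).trans (LS.convL_delta_delta x y)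

/-- The value of `f ∈ ℓ¹(S)` at `x`. -/
def coeff (f : EllS S) (x : S) : ℂ := (show L1 S from f) x

lemma hasSum_delta (f : EllS S) : HasSum (fun x => coeff f x • (delta x : EllS S)) f :=
  L1.hasSum_delta f

/-- The norm of `ℓ¹(S)`. -/
theorem norm_eq (f : EllS S) : ‖f‖ = ∑' x, ‖coeff f x‖ := L1.norm_eq f

lemma summable_coeff (f : EllS S) : Summable fun x => ‖coeff f x‖ := L1.summable_norm f

section Map

variable {B : Type*} [NormedRing B] [NormedAlgebra ℂ B] [CompleteSpace B] (v : S → B)
  (hv : ∀ x, ‖v x‖ ≤ 1) (hm : ∀ x y, v (x * y) = v x * v y)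

/-- The continuous linear map `f ↦ ∑ₓ f(x) v(x)` given by a family `v` in the unit ball. -/
noncomputable def liftL : EllS S →L[ℂ] B := L1.lift v 1 hv

@[simp] lemma liftL_delta (x : S) : liftL v hv (delta x) = v x := L1.lift_delta v 1 hv x

lemma norm_liftL (f : EllS S) : ‖liftL v hv f‖ ≤ ‖f‖ := by
  have h := L1.lift_bound v 1 hv f
  rw [one_mul] at h
  exact h

include hm in
lemma liftL_mul (f g : EllS S) : liftL v hv (f * g) = liftL v hv f * liftL v hv g :=
  LS.lift_conv v hv hm f g

/-- The linear extension is given by a norm convergent sum. -/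
lemma liftL_eq (f : EllS S) : liftL v hv f = ∑' x, coeff f x • v x := rfl

lemma hasSum_liftL (f : EllS S) :
    HasSum (fun x => coeff f x • v x) (liftL v hv f) := by
  have h := (L1.summable_lift v 1 hv f).hasSum
  exact h

end Map

end EllS

end Q164.DF
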