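import Mathlib
import Pool.Agent.Q164.DF.L1S

/-!
# A family of quotients of `ℓ¹(S)` indexed by the Cantor space

`S` is the free semigroup on countably many generators. For `t ∈ 2^ℕ` we define a homomorphism
`q t : ℓ¹(S) → B(E)`, `E = ℓ^∞(ℕ ∪ {∞})`, whose image is the closed linear span of the rank one
operators `R t i m : x ↦ x(m) (e_i + t_i e_∞)`.
-/

open scoped ENNReal Classical Topology
open Filter

set_option autoImplicit false

namespace Q164.DF.Ghost

/-- The Banach space `ℓ^∞(ℕ ∪ {∞})`. -/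
def E : Type := lp (fun _ : Option ℕ => ℂ) ∞

noncomputable instance instNACG : NormedAddCommGroup E :=
  inferInstanceAs (NormedAddCommGroup (lp (fun _ : Option ℕ => ℂ) ∞))

noncomputable instance instNS : NormedSpace ℂ E :=
  inferInstanceAs (NormedSpace ℂ (lp (fun _ : Option ℕ => ℂ) ∞))

instance instCS : CompleteSpace E :=
  inferInstanceAs (CompleteSpace (lp (fun _ : Option ℕ => ℂ) ∞))

/-- The coordinate functionals. -/
noncomputable def ev (m : Option ℕ) : E →L[ℂ] ℂ :=
  (lp.evalCLM ℂ (fun _ : Option ℕ => ℂ) (p := ∞) m : lp (fun _ : Option ℕ => ℂ) ∞ →L[ℂ] ℂ)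

/-- The unit vectors. -/
noncomputable def e (i : Option ℕ) : E :=
  (lp.single ∞ i (1 : ℂ) : lp (fun _ : Option ℕ => ℂ) ∞)

lemma ev_e (m i : Option ℕ) : ev m (e i) = if m = i then 1 else 0 := by
  change (Pi.single i (1 : ℂ) : Option ℕ → ℂ) m = _
  rw [Pi.single_apply]

lemma E_ext {x y : E} (h : ∀ m, ev m x = ev m y) : x = y := by
  apply Subtype.ext
  funext m
  exact h m

/-- The value `0` or `1` of `t` at `i`. -/
noncomputable def tv (t : ℕ → Bool) (i : ℕ) : ℂ := if t i = true then 1 else 0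

/-- The vectors `e_i + t_i e_∞`. -/
noncomputable def io (t : ℕ → Bool) (i : ℕ) : E := e (some i) + tv t i • e none

lemma ev_some_io (t : ℕ → Bool) (m i : ℕ) : ev (some m) (io t i) = if m = i then 1 else 0 := by
  rw [io, map_add, map_smul, ev_e, ev_e]
  simp

lemma ev_none_io (t : ℕ → Bool) (i : ℕ) : ev none (io t i) = tv t i := by
  rw [io, map_add, map_smul, ev_e, ev_e]
  simp

/-- The rank one operators `x ↦ x(m) (e_i + t_i e_∞)`. -/
noncomputable def R (t : ℕ → Bool) (p : ℕ × ℕ) : E →L[ℂ] E :=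
  (ev (some p.2)).smulRight (io t p.1)

lemma R_apply (t : ℕ → Bool) (p : ℕ × ℕ) (x : E) : R t p x = ev (some p.2) x • io t p.1 := rfl

lemma mul_R (t : ℕ → Bool) (T : E →L[ℂ] E) (p : ℕ × ℕ) (x : E) :
    (T * R t p) x = ev (some p.2) x • T (io t p.1) := by
  change T (R t p x) = _
  rw [R_apply, map_smul]

lemma R_mul_mul_R (t : ℕ → Bool) (T : E →L[ℂ] E) (i m n j : ℕ) :
    R t (i, m) * T * R t (n, j) = ev (some m) (T (io t n)) • R t (i, j) := by
  ext1 x
  rw [mul_R]
  change _ • R t (i, m) (T (io t n)) = ev (some m) (T (io t n)) • R t (i, j) x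
  rw [R_apply, R_apply, smul_smul, smul_smul, mul_comm]

lemma R_mul_R (t : ℕ → Bool) (p p' : ℕ × ℕ) :
    R t p * R t p' = (if p.2 = p'.1 then (1 : ℂ) else 0) • R t (p.1, p'.2) := by
  ext1 x
  rw [mul_R, R_apply, ev_some_io]
  change _ = (if p.2 = p'.1 then (1 : ℂ) else 0) • R t (p.1, p'.2) x
  rw [R_apply, smul_smul, smul_smul, mul_comm]

/-- The linear span of the operators `R t p`. -/
noncomputable def Sp (t : ℕ → Bool) : Submodule ℂ (E →L[ℂ] E) :=
  Submodule.span ℂ (Set.range (R t))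

lemma R_mem (t : ℕ → Bool) (p : ℕ × ℕ) : R t p ∈ Sp t := Submodule.subset_span ⟨p, rfl⟩

lemma Sp_mul {t : ℕ → Bool} {x y : E →L[ℂ] E} (hx : x ∈ Sp t) (hy : y ∈ Sp t) : x * y ∈ Sp t := by
  refine Submodule.span_induction₂ (p := fun a b _ _ => a * b ∈ Sp t) ?_ ?_ ?_ ?_ ?_ ?_ ?_ hx hy
  · rintro _ _ ⟨p, rfl⟩ ⟨p', rfl⟩
    rw [R_mul_R]
    exact (Sp t).smul_mem _ (R_mem t _)
  · intro y _; simp
  · intro x _; simp
  · intro x y z _ _ _ h1 h2
    rw [add_mul]; exact (Sp t).add_mem h1 h2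
  · intro x y z _ _ _ h1 h2
    rw [mul_add]; exact (Sp t).add_mem h1 h2
  · intro r x y _ _ h
    rw [smul_mul_assoc]; exact (Sp t).smul_mem _ h
  · intro r x y _ _ h
    rw [mul_smul_comm]; exact (Sp t).smul_mem _ h

/-- The additive embedding of `ℚ²` in `ℂ`. -/
noncomputable def c : ℚ × ℚ →+ ℂ where
  toFun q := (q.1 : ℂ) + (q.2 : ℂ) * Complex.I
  map_zero' := by simp
  map_add' x y := by push_cast [Prod.fst_add, Prod.snd_add]; ring

lemma c_dense : DenseRange c := by
  have h1 : DenseRange (fun q : ℚ × ℚ => ((q.1 : ℝ), (q.2 : ℝ))) :=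
    Rat.denseRange_cast.prodMap Rat.denseRange_cast
  have h2 := Complex.equivRealProdCLM.symm.surjective.denseRange.comp h1
    Complex.equivRealProdCLM.symm.continuous
  convert h2 using 1
  funext q
  apply Complex.ext <;> simp [c]

/-- Matrices with finitely many nonzero entries, all in `ℚ + iℚ`. -/
abbrev G : Type := ℕ × ℕ →₀ ℚ × ℚ

/-- The operator given by a matrix. -/
noncomputable def Am (t : ℕ → Bool) : G →+ (E →L[ℂ] E) :=
  Finsupp.liftAddHom fun p =>
    { toFun := fun q => c q • R t p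
      map_zero' := by rw [map_zero, zero_smul]
      map_add' := fun q q' => by rw [map_add, add_smul] }

lemma Am_single (t : ℕ → Bool) (p : ℕ × ℕ) (q : ℚ × ℚ) :
    Am t (Finsupp.single p q) = c q • R t p := by
  rw [Am, Finsupp.liftAddHom_apply_single]
  rfl

lemma Am_apply (t : ℕ → Bool) (g : G) : Am t g = g.sum fun p q => c q • R t p := rfl

lemma Am_mem (t : ℕ → Bool) (g : G) : Am t g ∈ Sp t := by
  rw [Am_apply]
  exact Submodule.sum_mem _ fun p _ => (Sp t).smul_mem _ (R_mem t p)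

/-- An enumeration of the matrices. -/
noncomputable def nu : ℕ → G := Classical.choose (exists_surjective_nat G)

lemma nu_surj : Function.Surjective nu := Classical.choose_spec (exists_surjective_nat G)

/-- The images of the generators. -/
noncomputable def v (t : ℕ → Bool) (n : ℕ) : E →L[ℂ] E :=
  (((max 1 ‖Am t (nu n)‖)⁻¹ : ℝ) : ℂ) • Am t (nu n)

lemma norm_v (t : ℕ → Bool) (n : ℕ) : ‖v t n‖ ≤ 1 := by
  have h1 : (0 : ℝ) < max 1 ‖Am t (nu n)‖ := lt_of_lt_of_le one_pos (le_max_left _ _)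
  rw [v, norm_smul, Complex.norm_real, Real.norm_of_nonneg (by positivity),
    inv_mul_le_iff₀ h1, mul_one]
  exact le_max_right _ _

lemma v_mem (t : ℕ → Bool) (n : ℕ) : v t n ∈ Sp t := (Sp t).smul_mem _ (Am_mem t _)

/-- The multiplicative extension to words. -/
noncomputable def V (t : ℕ → Bool) : FreeSemigroup ℕ →ₙ* (E →L[ℂ] E) := FreeSemigroup.lift (v t)

lemma norm_V (t : ℕ → Bool) (w : FreeSemigroup ℕ) : ‖V t w‖ ≤ 1 := by
  induction w using FreeSemigroup.recOnMul with
  | ih1 x => rw [V, FreeSemigroup.lift_of]; exact norm_v t x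
  | ih2 x y hx hy =>
    rw [map_mul]
    exact (norm_mul_le _ _).trans (mul_le_one₀ hx (norm_nonneg _) hy)

lemma V_mem (t : ℕ → Bool) (w : FreeSemigroup ℕ) : V t w ∈ Sp t := by
  induction w using FreeSemigroup.recOnMul with
  | ih1 x => rw [V, FreeSemigroup.lift_of]; exact v_mem t x
  | ih2 x y hx hy =>
    rw [map_mul]
    exact Sp_mul hx hy

/-- The algebra `ℓ¹(S)`. -/
abbrev P : Type := EllS (FreeSemigroup ℕ)

/-- The homomorphism `ℓ¹(S) → B(E)`. -/
noncomputable def q (t : ℕ → Bool) : P →L[ℂ] (E →L[ℂ] E) := EllS.liftL (V t) (norm_V t)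

lemma q_mul (t : ℕ → Bool) (x y : P) : q t (x * y) = q t x * q t y :=
  EllS.liftL_mul (V t) (norm_V t) (fun _ _ => map_mul _ _ _) x y

lemma norm_q (t : ℕ → Bool) (x : P) : ‖q t x‖ ≤ ‖x‖ := EllS.norm_liftL _ _ x

/-- The closure of the span, as a submodule. -/
noncomputable def B (t : ℕ → Bool) : Submodule ℂ (E →L[ℂ] E) := (Sp t).topologicalClosure

lemma q_mem (t : ℕ → Bool) (x : P) : q t x ∈ B t := by
  have h := EllS.hasSum_liftL (V t) (norm_V t) x
  refine (Sp t).isClosed_topologicalClosure.mem_of_tendsto h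
    (Eventually.of_forall fun F => ?_)
  exact (Sp t).le_topologicalClosure
    (Submodule.sum_mem _ fun w _ => (Sp t).smul_mem _ (V_mem t w))

/-- The additive group of operators given by matrices in `G`. -/
noncomputable def KG (t : ℕ → Bool) : AddSubgroup (E →L[ℂ] E) := (Am t).range

lemma smul_R_mem (t : ℕ → Bool) (z : ℂ) (p : ℕ × ℕ) : z • R t p ∈ (KG t).topologicalClosure := by
  have h1 : z ∈ closure (Set.range c) := c_dense z
  have h2 : Continuous fun z : ℂ => z • R t p := continuous_id.smul continuous_const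
  have h3 : z • R t p ∈ closure ((fun z : ℂ => z • R t p) '' Set.range c) :=
    image_closure_subset_closure_image h2 ⟨z, h1, rfl⟩
  refine closure_mono ?_ h3
  rintro _ ⟨_, ⟨q, rfl⟩, rfl⟩
  exact ⟨Finsupp.single p q, Am_single t p q⟩

lemma Sp_le (t : ℕ → Bool) {T : E →L[ℂ] E} (h : T ∈ Sp t) : T ∈ (KG t).topologicalClosure := by
  rw [Sp, Finsupp.mem_span_range_iff_exists_finsupp] at h
  obtain ⟨a, rfl⟩ := h
  exact AddSubgroup.sum_mem _ fun p _ => smul_R_mem t _ p

lemma B_le (t : ℕ → Bool) {T : E →L[ℂ] E} (h : T ∈ B t) : T ∈ (KG t).topologicalClosure := by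
  have h1 : T ∈ closure (Sp t : Set (E →L[ℂ] E)) := h
  exact closure_minimal (fun x hx => Sp_le t hx) (KG t).isClosed_topologicalClosure h1

/-- `q t` as a homomorphism of normed groups. -/
noncomputable def qg (t : ℕ → Bool) : NormedAddGroupHom P (E →L[ℂ] E) where
  toFun := q t
  map_add' := map_add _
  bound' := ⟨1, fun x => by rw [one_mul]; exact norm_q t x⟩

lemma exists_preimage_Am (t : ℕ → Bool) (g : G) : ∃ p : P, q t p = Am t g ∧ ‖p‖ ≤ ‖Am t g‖ := by
  by_cases h0 : Am t g = 0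
  · exact ⟨0, by rw [map_zero, h0], by rw [norm_zero]; exact norm_nonneg _⟩
  have hpos : 0 < ‖Am t g‖ := norm_pos_iff.2 h0
  obtain ⟨N, hN⟩ := exists_nat_ge (‖Am t g‖⁻¹)
  have hN0 : 0 < (N : ℝ) := lt_of_lt_of_le (inv_pos.2 hpos) hN
  obtain ⟨n, hn⟩ := nu_surj (N • g)
  have h1 : Am t (nu n) = (N : ℂ) • Am t g := by
    rw [hn, map_nsmul, ← Nat.cast_smul_eq_nsmul ℂ]
  have h2 : ‖Am t (nu n)‖ = N * ‖Am t g‖ := by
    rw [h1, norm_smul, Complex.norm_natCast]
  have h3 : max 1 ‖Am t (nu n)‖ = N * ‖Am t g‖ := by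
    rw [h2, max_eq_right]
    rw [inv_le_iff_one_le_mul₀ hpos] at hN
    exact hN
  refine ⟨(‖Am t g‖ : ℂ) • EllS.delta (FreeSemigroup.of n), ?_, ?_⟩
  · rw [map_smul, q, EllS.liftL_delta, V, FreeSemigroup.lift_of, v, h3, h1, smul_smul, smul_smul]
    have hc : (‖Am t g‖ : ℂ) * ((((N : ℝ) * ‖Am t g‖)⁻¹ : ℝ) : ℂ) * (N : ℂ) = 1 := by
      have ha : (‖Am t g‖ : ℂ) ≠ 0 := by exact_mod_cast hpos.ne'
      have hb : (N : ℂ) ≠ 0 := by exact_mod_cast hN0.ne'
      push_cast
      field_simp
    rw [hc, one_smul]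
  · rw [norm_smul, EllS.norm_delta, mul_one, Complex.norm_real, norm_norm]

lemma exists_preimage (t : ℕ → Bool) {T : E →L[ℂ] E} (hT : T ∈ B t) (ε : ℝ) (hε : 0 < ε) :
    ∃ p : P, q t p = T ∧ ‖p‖ ≤ (1 + ε) * ‖T‖ := by
  have h := controlled_closure_of_complete (f := qg t) (K := KG t) one_pos hε (by
    rintro _ ⟨g, rfl⟩
    obtain ⟨p, hp, hp2⟩ := exists_preimage_Am t g
    exact ⟨p, hp, by rw [one_mul]; exact hp2⟩)
  exact h T (B_le t hT)

/-- The kernel of `q t` as a set. -/
def Ker (t : ℕ → Bool) : Set P := {x | q t x = 0}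

/-- The quotient norm is the norm of the image. -/
lemma infDist_Ker (t : ℕ → Bool) (x : P) : Metric.infDist x (Ker t) = ‖q t x‖ := by
  have hne : (Ker t).Nonempty := ⟨0, map_zero _⟩
  refine le_antisymm ?_ ?_
  · refine le_of_forall_pos_le_add fun ε hε => ?_
    obtain ⟨p, hp, hp2⟩ := exists_preimage t (q_mem t x) (ε / (‖q t x‖ + 1)) (by positivity)
    have h1 : x - p ∈ Ker t := by
      change q t (x - p) = 0
      rw [map_sub, hp, sub_self]
    refine (Metric.infDist_le_dist_of_mem h1).trans ?_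
    rw [dist_eq_norm, sub_sub_cancel]
    refine hp2.trans ?_
    have h2 : ε / (‖q t x‖ + 1) * ‖q t x‖ ≤ ε := by
      rw [div_mul_eq_mul_div, div_le_iff₀ (by positivity)]
      nlinarith [norm_nonneg (q t x)]
    nlinarith
  · rw [Metric.le_infDist hne]
    intro k hk
    have hk2 : q t k = 0 := hk
    calc ‖q t x‖ = ‖q t (x - k)‖ := by rw [map_sub, hk2, sub_zero]
      _ ≤ ‖x - k‖ := norm_q t _
      _ = dist x k := (dist_eq_norm _ _).symm

section Continuity

lemma continuous_tv (i : ℕ) : Continuous fun t : ℕ → Bool => tv t i := by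
  have h1 : Continuous fun b : Bool => (if b = true then (1 : ℂ) else 0) :=
    continuous_of_discreteTopology
  exact h1.comp (continuous_apply i)

lemma continuous_R (p : ℕ × ℕ) : Continuous fun t : ℕ → Bool => R t p := by
  have h1 : Continuous fun t : ℕ → Bool => io t p.1 := by
    unfold io
    exact continuous_const.add ((continuous_tv p.1).smul continuous_const)
  have h2 : Continuous fun x : E => (ev (some p.2)).smulRight x :=
    (ContinuousLinearMap.smulRightL ℂ E E (ev (some p.2))).continuous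
  exact h2.comp h1

lemma continuous_Am (g : G) : Continuous fun t : ℕ → Bool => Am t g := by
  simp only [Am_apply, Finsupp.sum]
  exact continuous_finsetSum _ fun p _ => (continuous_R p).fun_const_smul _

lemma continuous_v (n : ℕ) : Continuous fun t : ℕ → Bool => v t n := by
  unfold v
  refine Continuous.fun_smul ?_ (continuous_Am _)
  refine Complex.continuous_ofReal.comp ?_
  refine Continuous.inv₀ (continuous_const.max (continuous_Am _).norm) fun t => ?_
  exact (lt_of_lt_of_le one_pos (le_max_left _ _)).ne'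

lemma continuous_V (w : FreeSemigroup ℕ) : Continuous fun t : ℕ → Bool => V t w := by
  induction w using FreeSemigroup.recOnMul with
  | ih1 x => simpa only [V, FreeSemigroup.lift_of] using continuous_v x
  | ih2 x y hx hy => simpa only [map_mul] using hx.fun_mul hy

lemma continuous_q (x : P) : Continuous fun t : ℕ → Bool => q t x := by
  have h : (fun t : ℕ → Bool => q t x) = fun t => ∑' w, EllS.coeff x w • V t w := rfl
  rw [h]
  refine continuous_tsum (fun w => (continuous_V w).fun_const_smul _)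
    (EllS.summable_coeff x) fun w t => ?_
  rw [norm_smul]
  exact mul_le_of_le_one_right (norm_nonneg _) (norm_V t w)

end Continuity

end Q164.DF.Ghost
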