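import Mathlib
import Pool.Agent.Q164.DF.Ghost

/-!
# Ideals of the quotients `ℓ¹(S) / ker (q t)`
-/

open scoped ENNReal Classical Topology
open Filter

set_option autoImplicit false

namespace Q164.DF.Ghost

/-- Evaluation at a vector. -/
noncomputable def app (x : E) : (E →L[ℂ] E) →L[ℂ] E := ContinuousLinearMap.apply ℂ E x

lemma app_apply (x : E) (T : E →L[ℂ] E) : app x T = T x := rfl

/-- A continuous linear condition valid for all `R t p` is valid on `B t`. -/
lemma B_induction (t : ℕ → Bool) {F : Type*} [NormedAddCommGroup F] [NormedSpace ℂ F]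
    (f g : (E →L[ℂ] E) →L[ℂ] F) (h : ∀ p, f (R t p) = g (R t p)) {T : E →L[ℂ] E} (hT : T ∈ B t) :
    f T = g T := by
  have h1 : Sp t ≤ LinearMap.ker ((f - g : (E →L[ℂ] E) →L[ℂ] F) : (E →L[ℂ] E) →ₗ[ℂ] F) := by
    rw [Sp, Submodule.span_le]
    rintro _ ⟨p, rfl⟩
    change (f - g) (R t p) = 0
    change f (R t p) - g (R t p) = 0
    rw [h, sub_self]
  have h2 := (Sp t).topologicalClosure_minimal h1 (f - g).isClosed_ker hT
  have h3 : f T - g T = 0 := h2
  exact sub_eq_zero.1 h3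

lemma B_none (t : ℕ → Bool) {T : E →L[ℂ] E} (hT : T ∈ B t) : T (e none) = 0 := by
  have h := B_induction t (app (e none)) 0 (fun p => by
    rw [app_apply, R_apply, ev_e, if_neg (by simp), zero_smul]
    rfl) hT
  exact h

lemma B_coord (t : ℕ → Bool) (N : ℕ) (ht : ∀ i, N ≤ i → t i = false) {T : E →L[ℂ] E}
    (hT : T ∈ B t) (x : E) :
    ev none (T x) = ∑ i ∈ Finset.range N, tv t i * ev (some i) (T x) := by
  have h := B_induction t ((ev none).comp (app x))
    (∑ i ∈ Finset.range N, tv t i • (ev (some i)).comp (app x)) (fun p => by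
    rw [_root_.sum_apply]
    change ev none (R t p x) = ∑ i ∈ Finset.range N, tv t i * ev (some i) (R t p x)
    rw [R_apply, map_smul, ev_none_io]
    have h1 : ∀ i, tv t i * ev (some i) (ev (some p.2) x • io t p.1)
        = if i = p.1 then tv t p.1 * ev (some p.2) x else 0 := by
      intro i
      rw [map_smul, ev_some_io]
      by_cases hi : i = p.1
      · rw [if_pos hi, if_pos hi, hi]; simp
      · rw [if_neg hi, if_neg hi]; simp
    rw [Finset.sum_congr rfl fun i _ => h1 i, Finset.sum_ite_eq']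
    by_cases hp : p.1 ∈ Finset.range N
    · rw [if_pos hp, smul_eq_mul, mul_comm]
    · rw [if_neg hp]
      have : tv t p.1 = 0 := by
        unfold tv
        rw [ht _ (by simpa using hp)]
        simp
      rw [this, smul_zero]) hT
  rw [_root_.sum_apply] at h
  exact h

/-- Truncation of a vector. -/
noncomputable def tr (N : ℕ) (x : E) : E := ∑ n ∈ Finset.range N, ev (some n) x • e (some n)

lemma ev_tr (N : ℕ) (x : E) (m : Option ℕ) :
    ev m (tr N x) = if ∃ n, n < N ∧ m = some n then ev m x else 0 := by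
  rw [tr, map_sum]
  simp only [map_smul, ev_e, smul_eq_mul, mul_ite, mul_one, mul_zero]
  cases m with
  | none => simp
  | some n =>
    simp only [Option.some.injEq]
    rw [Finset.sum_ite_eq]
    by_cases hn : n < N
    · rw [if_pos (by simpa using hn), if_pos ⟨n, hn, rfl⟩]
    · rw [if_neg (by simpa using hn), if_neg]
      rintro ⟨k, hk, rfl⟩
      exact hn hk

lemma norm_le_of_ev (x : E) (C : ℝ) (hC : 0 ≤ C) (h : ∀ m, ‖ev m x‖ ≤ C) : ‖x‖ ≤ C :=
  lp.norm_le_of_forall_le (f := (x : lp (fun _ : Option ℕ => ℂ) ∞)) hC h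

lemma norm_ev (x : E) (m : Option ℕ) : ‖ev m x‖ ≤ ‖x‖ :=
  lp.norm_apply_le_norm ENNReal.top_ne_zero (x : lp (fun _ : Option ℕ => ℂ) ∞) m

lemma norm_tr (N : ℕ) (x : E) : ‖tr N x‖ ≤ ‖x‖ := by
  refine norm_le_of_ev _ _ (norm_nonneg _) fun m => ?_
  rw [ev_tr]
  split_ifs
  · exact norm_ev x m
  · rw [norm_zero]; exact norm_nonneg _

lemma Sp_tr (t : ℕ → Bool) {T : E →L[ℂ] E} (hT : T ∈ Sp t) :
    ∃ N0, ∀ N ≥ N0, ∀ x, T x = T (tr N x) := by
  refine Submodule.span_induction (p := fun T _ => ∃ N0, ∀ N ≥ N0, ∀ x, T x = T (tr N x))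
    ?_ ?_ ?_ ?_ hT
  · rintro _ ⟨p, rfl⟩
    refine ⟨p.2 + 1, fun N hN x => ?_⟩
    rw [R_apply, R_apply, ev_tr, if_pos ⟨p.2, by omega, rfl⟩]
  · exact ⟨0, fun N _ x => rfl⟩
  · rintro x y _ _ ⟨N1, h1⟩ ⟨N2, h2⟩
    refine ⟨max N1 N2, fun N hN z => ?_⟩
    change x z + y z = x (tr N z) + y (tr N z)
    rw [h1 N (le_trans (le_max_left _ _) hN), h2 N (le_trans (le_max_right _ _) hN)]
  · rintro a x _ ⟨N1, h1⟩
    refine ⟨N1, fun N hN z => ?_⟩
    change a • x z = a • x (tr N z)
    rw [h1 N hN]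

/-- For `t` with finite support an element of `B t` with vanishing entries is zero. -/
lemma B_eq_zero (t : ℕ → Bool) (N : ℕ) (ht : ∀ i, N ≤ i → t i = false) {T : E →L[ℂ] E}
    (hT : T ∈ B t) (h : ∀ m n, ev (some m) (T (io t n)) = 0) : T = 0 := by
  have h1 : ∀ n, T (io t n) = 0 := by
    intro n
    refine E_ext fun m => ?_
    rw [map_zero]
    cases m with
    | none =>
      rw [B_coord t N ht hT]
      exact Finset.sum_eq_zero fun i _ => by rw [h, mul_zero]
    | some m => exact h m n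
  have h2 : ∀ n, T (e (some n)) = 0 := by
    intro n
    have h3 := h1 n
    rw [io, map_add, map_smul, B_none t hT, smul_zero, add_zero] at h3
    exact h3
  have h3 : ∀ M x, T (tr M x) = 0 := by
    intro M x
    rw [tr, map_sum]
    exact Finset.sum_eq_zero fun n _ => by rw [map_smul, h2, smul_zero]
  ext1 x
  change T x = 0
  rw [← norm_le_zero_iff]
  refine le_of_forall_pos_le_add fun ε hε => ?_
  have h4 : T ∈ closure (Sp t : Set (E →L[ℂ] E)) := hT
  obtain ⟨S, hS, hST⟩ := Metric.mem_closure_iff.1 h4 (ε / (2 * (‖x‖ + 1))) (by positivity)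
  rw [dist_eq_norm] at hST
  obtain ⟨M, hM⟩ := Sp_tr t hS
  have h5 : ‖(T - S) x‖ ≤ ‖T - S‖ * ‖x‖ := (T - S).le_opNorm x
  have h6 : ‖(T - S) (tr M x)‖ ≤ ‖T - S‖ * ‖x‖ :=
    ((T - S).le_opNorm _).trans (by gcongr; exact norm_tr M x)
  have h7 : T x = (T - S) x - (T - S) (tr M x) := by
    change T x = (T x - S x) - (T (tr M x) - S (tr M x))
    rw [h3, hM M le_rfl x]
    abel
  have h8 : ‖T - S‖ * ‖x‖ ≤ ε / 2 := by
    calc ‖T - S‖ * ‖x‖ ≤ (ε / (2 * (‖x‖ + 1))) * (‖x‖ + 1) := by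
          gcongr
          linarith
      _ = ε / 2 := by field_simp
  rw [h7]
  calc ‖(T - S) x - (T - S) (tr M x)‖ ≤ ‖(T - S) x‖ + ‖(T - S) (tr M x)‖ := norm_sub_le _ _
    _ ≤ 0 + ε := by linarith

/-- Preimages of the operators `R t p`. -/
lemma exists_R (t : ℕ → Bool) (p : ℕ × ℕ) : ∃ x : P, q t x = R t p := by
  obtain ⟨x, hx, -⟩ := exists_preimage t ((Sp t).le_topologicalClosure (R_mem t p)) 1 one_pos
  exact ⟨x, hx⟩

/-- Simplicity for `t` with finite support. -/
theorem dense_of_finite (t : ℕ → Bool) (N : ℕ) (ht : ∀ i, N ≤ i → t i = false)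
    (J : Submodule ℂ P) (hJ : ∀ a x, x ∈ J → a * x ∈ J ∧ x * a ∈ J) (hK : ∀ x ∈ Ker t, x ∈ J)
    (b : P) (hb : b ∈ J) (hb0 : q t b ≠ 0) : Dense (J : Set P) := by
  -- a nonzero entry
  obtain ⟨m, n, hmn⟩ : ∃ m n, ev (some m) (q t b (io t n)) ≠ 0 := by
    by_contra h
    push Not at h
    exact hb0 (B_eq_zero t N ht (q_mem t b) h)
  -- all matrix units are images of elements of `J`
  have h1 : ∀ i j, ∃ x ∈ J, q t x = R t (i, j) := by
    intro i j
    obtain ⟨x, hx⟩ := exists_R t (i, m)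
    obtain ⟨y, hy⟩ := exists_R t (n, j)
    refine ⟨(ev (some m) (q t b (io t n)))⁻¹ • (x * b * y),
      J.smul_mem _ (hJ y _ (hJ x b hb).1).2, ?_⟩
    rw [map_smul, q_mul, q_mul, hx, hy, R_mul_mul_R, smul_smul, inv_mul_cancel₀ hmn, one_smul]
  have h2 : ∀ T ∈ Sp t, ∃ x ∈ J, q t x = T := by
    intro T hT
    refine Submodule.span_induction (p := fun T _ => ∃ x ∈ J, q t x = T) ?_ ?_ ?_ ?_ hT
    · rintro _ ⟨p, rfl⟩
      exact h1 p.1 p.2
    · exact ⟨0, J.zero_mem, map_zero _⟩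
    · rintro _ _ _ _ ⟨x, hx, rfl⟩ ⟨y, hy, rfl⟩
      exact ⟨x + y, J.add_mem hx hy, map_add _ _ _⟩
    · rintro a _ _ ⟨x, hx, rfl⟩
      exact ⟨a • x, J.smul_mem _ hx, map_smul _ _ _⟩
  rw [Metric.dense_iff]
  intro y r hr
  have h3 : q t y ∈ closure (Sp t : Set (E →L[ℂ] E)) := q_mem t y
  obtain ⟨S, hS, hSy⟩ := Metric.mem_closure_iff.1 h3 r hr
  obtain ⟨s, hs, rfl⟩ := h2 S hS
  rw [dist_eq_norm, ← map_sub, ← infDist_Ker] at hSy
  obtain ⟨k, hk, hyk⟩ := (Metric.infDist_lt_iff (show (Ker t).Nonempty from ⟨0, map_zero (q t)⟩)).1 hSy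
  refine ⟨s + k, ?_, J.add_mem hs (hK k hk)⟩
  rw [Metric.mem_ball, dist_comm]
  rw [dist_eq_norm] at hyk ⊢
  rwa [show y - (s + k) = y - s - k by abel]

/-- The ghost operator. -/
noncomputable def T0 : E →L[ℂ] E := (ev (some 0)).smulRight (e none)

lemma T0_apply (x : E) : T0 x = ev (some 0) x • e none := rfl

lemma T0_ne : T0 ≠ 0 := by
  intro h
  have h1 : ev none (T0 (e (some 0))) = 0 := by rw [h]; simp
  rw [T0_apply, map_smul, ev_e, ev_e] at h1
  simp at h1

lemma T0_mem (t : ℕ → Bool) (ht : {i | t i = true}.Infinite) : T0 ∈ B t := by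
  have h4 : T0 ∈ closure (Sp t : Set (E →L[ℂ] E)) := by
    rw [Metric.mem_closure_iff]
    intro ε hε
    obtain ⟨k, hk⟩ := exists_nat_one_div_lt hε
    obtain ⟨I, hI, hIc⟩ := ht.exists_subset_card_eq (k + 1)
    have hkc : ((k : ℂ) + 1) ≠ 0 := Nat.cast_add_one_ne_zero k
    refine ⟨∑ i ∈ I, ((k : ℂ) + 1)⁻¹ • R t (i, 0),
      Submodule.sum_mem _ fun i _ => (Sp t).smul_mem _ (R_mem t _), ?_⟩
    refine lt_of_le_of_lt ?_ hk
    rw [dist_eq_norm]
    refine ContinuousLinearMap.opNorm_le_bound _ (by positivity) fun x => ?_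
    have h5 : (T0 - ∑ i ∈ I, ((k : ℂ) + 1)⁻¹ • R t (i, 0)) x
        = ev (some 0) x • (e none - ∑ i ∈ I, ((k : ℂ) + 1)⁻¹ • io t i) := by
      change T0 x - (∑ i ∈ I, ((k : ℂ) + 1)⁻¹ • R t (i, 0)) x = _
      rw [_root_.sum_apply, T0_apply, smul_sub, Finset.smul_sum]
      congr 1
      refine Finset.sum_congr rfl fun i _ => ?_
      change ((k : ℂ) + 1)⁻¹ • R t (i, 0) x = _
      rw [R_apply, smul_smul, smul_smul, mul_comm]
    rw [h5, norm_smul, mul_comm]
    refine mul_le_mul ?_ (norm_ev x _) (norm_nonneg _) (by positivity)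
    refine norm_le_of_ev _ _ (by positivity) fun m => ?_
    rw [map_sub, map_sum]
    cases m with
    | none =>
      have h6 : ∀ i ∈ I, ev none (((k : ℂ) + 1)⁻¹ • io t i) = ((k : ℂ) + 1)⁻¹ := by
        intro i hi
        have h7 : t i = true := hI hi
        rw [map_smul, ev_none_io, tv, if_pos h7, smul_eq_mul, mul_one]
      rw [Finset.sum_congr rfl h6, Finset.sum_const, hIc, ev_e, if_pos rfl, nsmul_eq_mul]
      push_cast
      rw [mul_inv_cancel₀ hkc, sub_self, norm_zero]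
      positivity
    | some j =>
      have h6 : ∀ i ∈ I, ev (some j) (((k : ℂ) + 1)⁻¹ • io t i)
          = if j = i then ((k : ℂ) + 1)⁻¹ else 0 := by
        intro i _
        rw [map_smul, ev_some_io, smul_eq_mul]
        split_ifs <;> simp
      rw [Finset.sum_congr rfl h6, Finset.sum_ite_eq, ev_e, if_neg (by simp), zero_sub, norm_neg]
      split_ifs
      · rw [norm_inv]
        have : ‖((k : ℂ) + 1)‖ = (k : ℝ) + 1 := by
          have := Complex.norm_natCast (k + 1)
          push_cast at this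
          exact this
        rw [this, one_div]
      · rw [norm_zero]; positivity
  exact h4

/-- The ideal of all `x` such that `q t x` has vanishing entries. -/
noncomputable def L (t : ℕ → Bool) : Submodule ℂ P where
  carrier := {x | ∀ (m : ℕ) (y : E), ev (some m) (q t x y) = 0}
  zero_mem' := fun m y => by rw [map_zero]; simp
  add_mem' := fun {a b} ha hb m y => by
    rw [map_add]
    change ev (some m) (q t a y + q t b y) = 0
    rw [map_add, ha, hb, add_zero]
  smul_mem' := fun c x hx m y => by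
    rw [map_smul]
    change ev (some m) (c • q t x y) = 0
    rw [map_smul, hx, smul_zero]

lemma mem_L (t : ℕ → Bool) (x : P) :
    x ∈ L t ↔ ∀ (m : ℕ) (y : E), ev (some m) (q t x y) = 0 := Iff.rfl

lemma L_ideal (t : ℕ → Bool) (a x : P) (hx : x ∈ L t) : a * x ∈ L t ∧ x * a ∈ L t := by
  rw [mem_L] at hx
  constructor
  · intro m y
    rw [q_mul]
    change ev (some m) (q t a (q t x y)) = 0
    have h1 : q t x y = ev none (q t x y) • e none := by
      refine E_ext fun k => ?_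
      rw [map_smul, ev_e]
      cases k with
      | none => simp
      | some k => rw [hx, if_neg (by simp), smul_zero]
    rw [h1, map_smul, B_none t (q_mem t a), smul_zero, map_zero]
  · intro m y
    rw [q_mul]
    exact hx m _

lemma L_closed (t : ℕ → Bool) : IsClosed (L t : Set P) := by
  have h : (L t : Set P) = ⋂ (m : ℕ), ⋂ (y : E), {x | ev (some m) (q t x y) = 0} := by
    ext x
    simp only [Set.mem_iInter, Set.mem_ofPred_eq]
    exact Iff.rfl
  rw [h]
  refine isClosed_iInter fun m => isClosed_iInter fun y => ?_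
  have hc : Continuous fun x : P => ev (some m) (q t x y) :=
    (ev (some m)).continuous.comp ((app y).continuous.comp (q t).continuous)
  exact isClosed_eq hc continuous_const

lemma Ker_le_L (t : ℕ → Bool) {x : P} (hx : x ∈ Ker t) : x ∈ L t := by
  have h : q t x = 0 := hx
  intro m y
  rw [h]
  simp

lemma L_ne (t : ℕ → Bool) : ∃ a : P, a ∉ L t := by
  obtain ⟨a, ha⟩ := exists_R t (0, 0)
  refine ⟨a, fun h => ?_⟩
  have h1 := h 0 (e (some 0))
  rw [ha, R_apply, map_smul, ev_e, ev_some_io] at h1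
  simp at h1

lemma exists_ghost (t : ℕ → Bool) (ht : {i | t i = true}.Infinite) :
    ∃ x : P, x ∈ L t ∧ x ∉ Ker t := by
  obtain ⟨x, hx, -⟩ := exists_preimage t (T0_mem t ht) 1 one_pos
  refine ⟨x, fun m y => ?_, fun h => ?_⟩
  · rw [hx, T0_apply, map_smul, ev_e, if_neg (by simp), smul_zero]
  · have h1 : q t x = 0 := h
    rw [hx] at h1
    exact T0_ne h1

end Q164.DF.Ghost
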